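import Pool.Agent.W5h65.MD.A7
import Pool.Agent.W5h2.ER.EulerR

set_option autoImplicit false

/-! The density of the fundamental discriminants with `χ_d(N) ≠ 0`, for squares `N`. -/

namespace Pool.Agent.W5h65.SM

open Finset Pool.Agent.W5h65.MD Pool.Agent.H306R2.RZ

lemma js_pow_two (l r : ℕ) (hr : r ≠ 0) : js (l : ℤ) (r ^ 2) ^ 2 = if Nat.Coprime l r then 1 else 0 := by
  have h1 : js (l : ℤ) (r ^ 2) = js l r ^ 2 := by
    unfold js
    rw [jacobiSym.pow_right]
    push_cast
    rfl
  rw [h1]
  unfold js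
  by_cases h : Nat.Coprime l r
  · rw [if_pos h]
    have h4 : jacobiSym l r ^ 2 = 1 := by
      have : ((l : ℤ)).gcd r = 1 := by
        rw [Int.gcd_natCast_natCast]
        exact h
      exact jacobiSym.sq_one this
    have h5 : (((jacobiSym l r : ℤ) : ℝ)) ^ 2 = 1 := by exact_mod_cast h4
    rw [h5]
    norm_num
  · rw [if_neg h]
    have h4 : jacobiSym l r = 0 := by
      have : NeZero r := ⟨hr⟩
      rw [jacobiSym.eq_zero_iff_not_coprime, Int.gcd_natCast_natCast]
      exact h
    rw [h4]
    simp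

lemma cS_eval {r : ℕ} (hr : Odd r) :
    cS r = 4 / (3 * riemannZeta 2) * ∏ p ∈ r.primeFactors, ((p : ℂ) / (p + 1)) := by
  rw [← Pool.Agent.W5h2.ER.euler_r r hr]
  unfold cS tt
  congr 1
  refine tsum_congr fun l => ?_
  congr 1
  unfold cl
  have hr0 : r ≠ 0 := by rintro rfl; simp at hr
  rw [js_pow_two l r hr0]
  by_cases h1 : Odd l
  · by_cases h2 : Nat.Coprime l r
    · rw [if_pos h1, if_pos h2, if_pos ⟨h1, h2⟩]
      simp
    · rw [if_pos h1, if_neg h2, if_neg (fun h => h2 h.2)]
      simp
  · rw [if_neg h1, if_neg (fun h => h1 h.1)]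

lemma js21 : js 2 1 = 1 := by
  unfold js
  rw [jacobiSym.one_right]
  norm_num

lemma js25 : js 2 5 = -1 := by
  unfold js
  have : jacobiSym 2 5 = -1 := by decide +kernel
  rw [this]
  norm_num

lemma mean_r1 (a : ℕ) : mean (od (r1 a)) = if Even a then 1 / 4 else 0 := by
  rw [mean_od]
  unfold r1
  norm_num [js21, js25]
  by_cases h : Even a
  · rw [if_pos h, h.neg_one_pow]
    norm_num
  · rw [if_neg h, (Nat.not_even_iff_odd.1 h).neg_one_pow]
    norm_num

lemma mean_r4 : mean (od r4) = 1 / 4 := by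
  rw [mean_od]
  unfold r4
  norm_num

lemma mean_1 : mean (od (fun _ => 1)) = 1 / 2 := by
  rw [mean_od]
  norm_num

theorem cF_eval (N : ℕ) (hN : 1 ≤ N) : cF N = if IsSquare N then
    1 / (2 * riemannZeta 2) * ∏ p ∈ N.primeFactors, ((p : ℂ) / (p + 1)) else 0 := by
  obtain ⟨a, n, hn, rfl⟩ := Nat.exists_eq_two_pow_mul_odd (n := N) (by omega)
  unfold cF
  rw [va_mul a n hn, ob_mul a n hn, mean_r1, mean_r4, mean_1]
  have hn0 : n ≠ 0 := by rintro rfl; simp at hn
  by_cases hsq : IsSquare n
  · rw [if_pos hsq]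
    obtain ⟨r, hr⟩ := hsq
    have hro : Odd r := by
      rw [hr] at hn
      exact (Nat.odd_mul.1 hn).1
    have hr0 : r ≠ 0 := by rintro rfl; simp at hro
    have e1 : Nat.sqrt n = r := by rw [hr]; exact Nat.sqrt_eq r
    rw [e1, cS_eval hro]
    have hpf : n.primeFactors = r.primeFactors := by
      rw [hr, Nat.primeFactors_mul hr0 hr0, union_self]
    by_cases ha : Even a
    · have hs : IsSquare (2 ^ a * n) := by
        obtain ⟨b, hb⟩ := ha
        exact ⟨2 ^ b * r, by rw [hb, hr, pow_add]; ring⟩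
      rw [if_pos ha, if_pos hs]
      rcases Nat.eq_zero_or_pos a with h0 | h0
      · subst h0
        rw [if_pos rfl, pow_zero, one_mul, hpf]
        ring
      · rw [if_neg (by omega), Nat.primeFactors_mul (by positivity) hn0,
          Nat.primeFactors_prime_pow (by omega) Nat.prime_two, hpf, prod_union, prod_singleton]
        · push_cast
          ring
        · rw [disjoint_singleton_left]
          intro h2
          have := Nat.dvd_of_mem_primeFactors h2
          rw [Nat.odd_iff] at hro
          omega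
    · have hs : ¬ IsSquare (2 ^ a * n) := by
        rintro ⟨m, hm⟩
        apply ha
        have h1 := va_mul a n hn
        rw [hm] at h1
        unfold va at h1
        have hm0 : m ≠ 0 := by
          rintro rfl
          rw [mul_zero] at hm
          have : 0 < 2 ^ a * n := by positivity
          omega
        rw [padicValNat.mul hm0 hm0] at h1
        exact ⟨_, h1.symm⟩
      rw [if_neg ha, if_neg hs, if_neg (by rintro rfl; simp at ha)]
      ring
  · rw [if_neg hsq, if_neg]
    rintro ⟨m, hm⟩
    apply hsq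
    have hm0 : m ≠ 0 := by
      rintro rfl
      rw [mul_zero] at hm
      have : 0 < 2 ^ a * n := by positivity
      omega
    obtain ⟨c, m', hm', rfl⟩ := Nat.exists_eq_two_pow_mul_odd hm0
    have h1 := ob_mul a n hn
    have h2 := ob_mul (c + c) (m' * m') (hm'.mul hm')
    rw [hm] at h1
    have h3 : 2 ^ c * m' * (2 ^ c * m') = 2 ^ (c + c) * (m' * m') := by rw [pow_add]; ring
    rw [h3, h2] at h1
    exact ⟨m', h1.symm⟩

end Pool.Agent.W5h65.SM
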