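import Pool.Agent.W5h65.SM.P3

set_option autoImplicit false

/-! The smooth sums, main term. -/

namespace Pool.Agent.W5h65.SM

open Finset Filter Topology MeasureTheory Pool.Agent.W5h65.MD

/-- the Riemann sum -/
theorem riemann {g : ℝ → ℂ} (hg : ContDiff ℝ ((⊤ : ℕ∞) : WithTop ℕ∞) g) {a b : ℝ} (ha : 0 < a)
    (hab : a ≤ b)
    (hsupp : ∀ x, g x ≠ 0 → a ≤ x ∧ x ≤ b) : ∃ V : ℝ, 0 < V ∧ ∀ (X : ℝ) (N : ℕ), 1 ≤ X → b * X < N →
    ‖∑ d ∈ range N, g (d / X) - X * ∫ x : ℝ, g x‖ ≤ V := by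
  have hcs : HasCompactSupport g := HasCompactSupport.intro (isCompact_Icc (a := a) (b := b)) (by
    intro x hx
    by_contra h
    exact hx (hsupp x h))
  obtain ⟨L, hL⟩ := ContDiff.lipschitzWith_of_hasCompactSupport hcs hg (by simp)
  have hz : ∀ x, x < a ∨ b < x → g x = 0 := by
    intro x hx
    by_contra h
    have := hsupp x h
    rcases hx with h1 | h1 <;> linarith
  have hb : 0 < b := lt_of_lt_of_le ha hab
  refine ⟨L * (b + 2) + 1, by positivity, ?_⟩
  intro X N hX hN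
  have hX0 : 0 < X := by linarith
  -- the smallest admissible number of terms
  obtain ⟨n, hn⟩ : ∃ n : ℕ, n = ⌈b * X⌉₊ + 1 := ⟨_, rfl⟩
  have hn1 : b * X < n := by
    rw [hn]
    push_cast
    have := Nat.le_ceil (b * X)
    linarith
  have hn2 : (n : ℝ) ≤ b * X + 2 := by
    rw [hn]
    push_cast
    have := Nat.ceil_lt_add_one (show 0 ≤ b * X by positivity)
    linarith
  have hz2 : ∀ d : ℕ, b * X < d → g (d / X) = 0 := by
    intro d hd
    apply hz
    right
    rwa [lt_div_iff₀ hX0]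
  have hsum : ∑ d ∈ range N, g (d / X) = ∑ d ∈ range n, g (d / X) := by
    rcases le_total N n with h | h
    · apply sum_subset (range_mono h)
      intro d _ hd
      rw [mem_range, not_lt] at hd
      apply hz2
      have : (N : ℝ) ≤ d := by exact_mod_cast hd
      linarith
    · symm
      apply sum_subset (range_mono h)
      intro d _ hd
      rw [mem_range, not_lt] at hd
      apply hz2
      have : (n : ℝ) ≤ d := by exact_mod_cast hd
      linarith
  have hcont : Continuous (fun x : ℝ => g (x / X)) := hg.continuous.comp (by fun_prop)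
  have hint : X * ∫ x : ℝ, g x = ∫ x in (0 : ℝ)..n, g (x / X) := by
    have e1 : ∫ x : ℝ, g (x / X) = X * ∫ x : ℝ, g x := by
      rw [MeasureTheory.Measure.integral_comp_div (fun x => g x) X, abs_of_pos hX0]
      rfl
    rw [← e1, intervalIntegral.integral_of_le (by positivity)]
    symm
    apply setIntegral_eq_integral_of_forall_compl_eq_zero
    intro x hx
    apply hz
    rw [Set.mem_Ioc, not_and_or, not_lt, not_le] at hx
    rcases hx with h | h
    · left
      have : x / X ≤ 0 := div_nonpos_of_nonpos_of_nonneg h hX0.le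
      linarith
    · right
      rw [lt_div_iff₀ hX0]
      linarith
  rw [hsum, hint]
  have hadj : ∫ x in (0 : ℝ)..n, g (x / X) = ∑ d ∈ range n, ∫ x in (d : ℝ)..((d + 1 : ℕ) : ℝ), g (x / X) := by
    have := intervalIntegral.sum_integral_adjacent_intervals (μ := volume) (n := n)
      (a := fun k : ℕ => (k : ℝ)) (f := fun x => g (x / X)) (fun k _ => hcont.intervalIntegrable _ _)
    rw [this]
    simp
  rw [hadj, ← sum_sub_distrib]
  have hterm : ∀ d ∈ range n, ‖g (d / X) - ∫ x in (d : ℝ)..((d + 1 : ℕ) : ℝ), g (x / X)‖ ≤ L / X := by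
    intro d _
    have e1 : g (d / X) = ∫ x in (d : ℝ)..((d + 1 : ℕ) : ℝ), g (d / X) := by
      rw [intervalIntegral.integral_const]
      push_cast
      simp
    rw [e1, ← intervalIntegral.integral_sub (by simp) (hcont.intervalIntegrable _ _)]
    have e2 : ∀ x ∈ Set.uIoc (d : ℝ) ((d + 1 : ℕ) : ℝ), ‖g (d / X) - g (x / X)‖ ≤ L / X := by
      intro x hx
      rw [Set.uIoc_of_le (by push_cast; linarith), Set.mem_Ioc] at hx
      push_cast at hx
      have e3 := hL.dist_le_mul (d / X) (x / X)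
      rw [dist_eq_norm] at e3
      refine e3.trans ?_
      rw [Real.dist_eq, ← sub_div, abs_div, abs_of_pos hX0, div_eq_mul_inv, ← mul_assoc, div_eq_mul_inv]
      apply mul_le_mul_of_nonneg_right _ (by positivity)
      have : |(d : ℝ) - x| ≤ 1 := by
        rw [abs_le]
        constructor <;> linarith [hx.1, hx.2]
      calc (L : ℝ) * |(d : ℝ) - x| ≤ L * 1 := mul_le_mul_of_nonneg_left this L.2
        _ = L := mul_one _
    have e4 := intervalIntegral.norm_integral_le_of_norm_le_const e2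
    refine e4.trans (le_of_eq ?_)
    push_cast
    rw [add_sub_cancel_left, abs_one, mul_one]
  calc ‖∑ d ∈ range n, (g (d / X) - ∫ x in (d : ℝ)..((d + 1 : ℕ) : ℝ), g (x / X))‖
      ≤ ∑ d ∈ range n, (L / X : ℝ) := (norm_sum_le _ _).trans (sum_le_sum hterm)
    _ = n * (L / X) := by rw [sum_const, card_range, nsmul_eq_mul]
    _ ≤ (b * X + 2) * (L / X) := by
        apply mul_le_mul_of_nonneg_right hn2
        positivity
    _ = L * (b + 2 / X) := by field_simp
    _ ≤ L * (b + 2) + 1 := by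
        have : 2 / X ≤ 2 := by
          rw [div_le_iff₀ hX0]
          linarith
        have : L * (b + 2 / X) ≤ L * (b + 2) := mul_le_mul_of_nonneg_left (by linarith) L.2
        linarith

/-- the smooth sum over fundamental discriminants `d > 1` -/
noncomputable def SS {k : ℕ} (M : ℕ) (g : ℝ → ℂ) (s : Fin k → ℂ) (X : ℝ) : ℂ :=
  ∑' d : ℕ, g (d / X) * gd M s 0 d

theorem main (k M : ℕ) (hM : 1 ≤ M) (p : (Fin k → ℝ) × ℝ) (hp : p ∈ Omega k) (B : ℝ)
    {g φ : ℝ → ℂ} (h : Rep g φ) (hg : ContDiff ℝ ((⊤ : ℕ∞) : WithTop ℕ∞) g) {a b : ℝ} (ha : 0 < a)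
    (hab : a ≤ b) (hsupp : ∀ x, g x ≠ 0 → a ≤ x ∧ x ≤ b) :
    ∃ (C : ℝ) (A : ℕ), 0 < C ∧ ∀ (s : Fin k → ℂ) (X : ℝ),
    (∀ i, p.1 i ≤ (s i).re) → (∀ i, (s i).re ≤ B) → 1 ≤ X →
    ‖SS M g s X - TT M s * (X * ∫ x : ℝ, g x)‖ ≤ C * (1 + ‖s‖) ^ A * X ^ p.2 := by
  obtain ⟨C, CT, A, hC, hCT, hB⟩ := block_bound k M hM p hp B h
  obtain ⟨V, hV, hR⟩ := riemann hg ha hab hsupp
  have hb : 0 < b := lt_of_lt_of_le ha hab
  have hω : 1 / 2 < p.2 := hp.1
  have h2ω : 1 < (2 : ℝ) ^ p.2 := Real.one_lt_rpow (by norm_num) (by linarith)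
  obtain ⟨D, hD⟩ : ∃ D : ℝ, D = (4 * b) ^ p.2 / ((2 : ℝ) ^ p.2 - 1) := ⟨_, rfl⟩
  have hD0 : 0 < D := by
    rw [hD]
    apply div_pos (by positivity) (by linarith)
  refine ⟨C * D + CT * V, A, by positivity, ?_⟩
  intro s X hs hsB hX
  have hX0 : 0 < X := by linarith
  obtain ⟨hT, hbl⟩ := hB s hs hsB
  have hz : ∀ x, x < a ∨ b < x → g x = 0 := by
    intro x hx
    by_contra h
    have := hsupp x h
    rcases hx with h1 | h1 <;> linarith
  have hS1 : 1 ≤ (1 + ‖s‖) ^ A := one_le_pow₀ (by linarith [norm_nonneg s])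
  have hXω : 1 ≤ X ^ p.2 := Real.one_le_rpow hX (by linarith)
  -- the number of blocks
  obtain ⟨J, hJ1, hJ2⟩ : ∃ J : ℕ, 2 * b * X ≤ 2 ^ J ∧ (J = 0 ∨ (2 : ℝ) ^ J < 4 * b * X) := by
    classical
    have hex : ∃ J : ℕ, 2 * b * X ≤ 2 ^ J := by
      obtain ⟨J, hJ⟩ := pow_unbounded_of_one_lt (2 * b * X) (by norm_num : (1 : ℝ) < 2)
      exact ⟨J, hJ.le⟩
    refine ⟨Nat.find hex, Nat.find_spec hex, ?_⟩
    rcases Nat.eq_zero_or_pos (Nat.find hex) with h0 | h0
    · exact Or.inl h0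
    · right
      have := Nat.find_min hex (m := Nat.find hex - 1) (by omega)
      rw [not_le] at this
      obtain ⟨m, hm⟩ : ∃ m, Nat.find hex = m + 1 := ⟨Nat.find hex - 1, by omega⟩
      rw [hm] at this ⊢
      rw [Nat.add_sub_cancel] at this
      rw [pow_succ]
      linarith
  obtain ⟨R, hRR⟩ : ∃ R : ℕ, R = 2 ^ (J + 1) + 1 := ⟨_, rfl⟩
  have hbR : b * X < R := by
    rw [hRR]
    push_cast
    rw [pow_succ]
    nlinarith [mul_pos hb hX0]
  have hgz : ∀ d : ℕ, d ∉ range R → g (d / X) = 0 := by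
    intro d hd
    rw [mem_range, not_lt] at hd
    apply hz
    right
    rw [lt_div_iff₀ hX0]
    have : (R : ℝ) ≤ d := by exact_mod_cast hd
    linarith
  have hSS : SS M g s X = ∑ d ∈ range R, g (d / X) * gd M s 0 d := by
    unfold SS
    apply tsum_eq_sum
    intro d hd
    rw [hgz d hd, zero_mul]
  have hone : ∀ d ∈ range R, (∑ j ∈ range J, PH (d / 2 ^ j)) * ((gd M s 0 d - TT M s) * g (d / X)) =
      (gd M s 0 d - TT M s) * g (d / X) := by
    intro d _
    by_cases h0 : g (d / X) = 0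
    · rw [h0]
      ring
    · obtain ⟨e1, e2⟩ := hsupp _ h0
      have hd0 : d ≠ 0 := by
        rintro rfl
        rw [Nat.cast_zero, zero_div] at e1
        linarith
      have hd1 : (1 : ℝ) ≤ d := by exact_mod_cast Nat.one_le_iff_ne_zero.2 hd0
      rw [div_le_iff₀ hX0] at e2
      have e3 : ∑ j ∈ range J, PH (d / 2 ^ j) = 1 := by
        have e4 := ph_partial J (d : ℝ)
        rw [hh_one (by rw [div_le_one (by positivity)]; linarith), hh_zero (by linarith), sub_zero] at e4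
        unfold PH
        rw [← Complex.ofReal_sum, e4, Complex.ofReal_one]
      rw [e3, one_mul]
  have key : SS M g s X - TT M s * ∑ d ∈ range R, g (d / X) =
      ∑ j ∈ range J, ∑ d ∈ range (2 ^ (j + 1) + 1),
        PH (d / 2 ^ j) * (gd M s 0 d - TT M s) * g (d / X) := by
    have e1 : ∀ j ∈ range J, ∑ d ∈ range (2 ^ (j + 1) + 1),
        PH (d / 2 ^ j) * (gd M s 0 d - TT M s) * g (d / X) =
        ∑ d ∈ range R, PH (d / 2 ^ j) * ((gd M s 0 d - TT M s) * g (d / X)) := by
      intro j hj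
      rw [mem_range] at hj
      have e2 : 2 ^ (j + 1) + 1 ≤ R := by
        rw [hRR]
        have : 2 ^ (j + 1) ≤ 2 ^ (J + 1) := Nat.pow_le_pow_right (by norm_num) (by omega)
        omega
      rw [sum_subset (range_mono e2)]
      · refine sum_congr rfl fun d _ => by ring
      · intro d _ hd
        rw [PH_range hd]
        ring
    rw [sum_congr rfl e1, sum_comm, hSS, mul_sum, ← sum_sub_distrib]
    refine sum_congr rfl fun d hd => ?_
    rw [← sum_mul, hone d hd]
    ring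
  have hblk : ‖SS M g s X - TT M s * ∑ d ∈ range R, g (d / X)‖ ≤
      C * D * (1 + ‖s‖) ^ A * X ^ p.2 := by
    rw [key]
    refine (norm_sum_le _ _).trans ((sum_le_sum fun j _ => hbl j X hX0).trans ?_)
    rw [← mul_sum]
    have e1 : ∑ j ∈ range J, (2 : ℝ) ^ ((j : ℝ) * p.2) ≤ D * X ^ p.2 := by
      have e2 : ∀ j ∈ range J, (2 : ℝ) ^ ((j : ℝ) * p.2) = ((2 : ℝ) ^ p.2) ^ j := by
        intro j _
        rw [← Real.rpow_natCast _ j, ← Real.rpow_mul (by norm_num), mul_comm]
      rw [sum_congr rfl e2, geom_sum_eq h2ω.ne']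
      rcases hJ2 with hJ0 | hJ3
      · rw [hJ0, pow_zero, sub_self, zero_div]
        positivity
      · have e3 : ((2 : ℝ) ^ p.2) ^ J ≤ (4 * b) ^ p.2 * X ^ p.2 := by
          rw [← Real.mul_rpow (by positivity) hX0.le, ← Real.rpow_natCast _ J,
            ← Real.rpow_mul (by norm_num), mul_comm p.2, Real.rpow_mul (by norm_num),
            Real.rpow_natCast]
          exact Real.rpow_le_rpow (by positivity) hJ3.le (by linarith)
        rw [hD, div_mul_eq_mul_div]
        apply div_le_div_of_nonneg_right _ (by linarith)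
        linarith
    calc _ ≤ C * (1 + ‖s‖) ^ A * (D * X ^ p.2) :=
          mul_le_mul_of_nonneg_left e1 (by positivity)
      _ = _ := by ring
  have hmain : ‖TT M s * ∑ d ∈ range R, g (d / X) - TT M s * (X * ∫ x : ℝ, g x)‖ ≤
      CT * V * (1 + ‖s‖) ^ A * X ^ p.2 := by
    rw [← mul_sub, norm_mul]
    have e1 := hR X R hX hbR
    calc _ ≤ CT * V := mul_le_mul hT e1 (norm_nonneg _) hCT.le
      _ ≤ CT * V * (1 + ‖s‖) ^ A := le_mul_of_one_le_right (by positivity) hS1
      _ ≤ _ := le_mul_of_one_le_right (by positivity) hXω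
  calc ‖SS M g s X - TT M s * (X * ∫ x : ℝ, g x)‖
      = ‖(SS M g s X - TT M s * ∑ d ∈ range R, g (d / X)) +
        (TT M s * ∑ d ∈ range R, g (d / X) - TT M s * (X * ∫ x : ℝ, g x))‖ := by
          congr 1
          ring
    _ ≤ _ := norm_add_le _ _
    _ ≤ C * D * (1 + ‖s‖) ^ A * X ^ p.2 + CT * V * (1 + ‖s‖) ^ A * X ^ p.2 := add_le_add hblk hmain
    _ = _ := by ring

end Pool.Agent.W5h65.SM
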