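import Mathlib

set_option autoImplicit false

/-! Mellin-type representation of smooth weights with compact support in `(0, ∞)`. -/

namespace Pool.Agent.W5h65.SM

open MeasureTheory FourierTransform SchwartzMap

theorem fourier_rep (g : ℝ → ℂ) (hg : ContDiff ℝ ((⊤ : ℕ∞) : WithTop ℕ∞) g) (a b : ℝ) (ha : 0 < a)
    (hsupp : ∀ x, g x ≠ 0 → a ≤ x ∧ x ≤ b) :
    ∃ φ : ℝ → ℂ, Continuous φ ∧ (∀ A : ℕ, Integrable (fun t : ℝ => (1 + |t|) ^ A * ‖φ t‖)) ∧
    ∀ x : ℝ, 0 < x → g x = ∫ t : ℝ, φ t * (x : ℂ) ^ ((t : ℂ) * Complex.I) := by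
  have hcs : HasCompactSupport (fun u : ℝ => g (Real.exp u)) :=
    HasCompactSupport.intro (isCompact_Icc (a := Real.log a) (b := Real.log b)) (by
      intro u hu
      by_contra h
      obtain ⟨h1, h2⟩ := hsupp _ h
      apply hu
      constructor
      · rw [Real.log_le_iff_le_exp ha]
        exact h1
      · rw [Real.le_log_iff_exp_le (lt_of_lt_of_le ha (h1.trans h2))]
        exact h2)
  have hsm : ContDiff ℝ ((⊤ : ℕ∞) : WithTop ℕ∞) (fun u : ℝ => g (Real.exp u)) :=
    hg.comp Real.contDiff_exp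
  obtain ⟨f, hf⟩ : ∃ f : 𝓢(ℝ, ℂ), ∀ u, f u = g (Real.exp u) := ⟨hcs.toSchwartzMap hsm, fun u => rfl⟩
  obtain ⟨F, hF⟩ : ∃ F : 𝓢(ℝ, ℂ), F = 𝓕 f := ⟨_, rfl⟩
  have hinv : 𝓕⁻ F = f := by rw [hF]; exact FourierTransform.fourierInv_fourier_eq f
  have hpi := Real.pi_pos
  have hval : ∀ u : ℝ, f u = ∫ v : ℝ, Complex.exp (↑(2 * Real.pi * (v * u)) * Complex.I) • F v := by
    intro u
    have h1 : (𝓕⁻ F) u = f u := by rw [hinv]
    rw [fourierInv_coe, Real.fourierInv_eq'] at h1
    rw [← h1]
    congr 1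
    funext v
    congr 4
    simp [mul_comm]
  refine ⟨fun t => (1 / (2 * Real.pi) : ℝ) * F (t / (2 * Real.pi)), ?_, ?_, ?_⟩
  · have := F.continuous
    fun_prop
  · intro A
    obtain ⟨H, hH⟩ : ∃ H : ℝ → ℝ, H = fun v => (1 + 2 * Real.pi * |v|) ^ A * ‖F v‖ / (2 * Real.pi) :=
      ⟨_, rfl⟩
    have h1 : Integrable H := by
      have h2 : Integrable (fun v : ℝ => (2 : ℝ) ^ A * (‖v‖ ^ 0 * ‖F v‖) +
          (4 * Real.pi) ^ A * (‖v‖ ^ A * ‖F v‖)) :=
        ((F.integrable_pow_mul volume 0).const_mul _).add ((F.integrable_pow_mul volume A).const_mul _)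
      refine h2.mono' ?_ ?_
      · apply Continuous.aestronglyMeasurable
        rw [hH]
        have := F.continuous
        fun_prop
      · filter_upwards with v
        rw [hH, Real.norm_of_nonneg (by positivity)]
        simp only [pow_zero, one_mul]
        have e1 : (1 + 2 * Real.pi * |v|) ^ A ≤ 2 ^ A + (4 * Real.pi) ^ A * |v| ^ A := by
          rcases le_total (2 * Real.pi * |v|) 1 with h | h
          · have : (1 + 2 * Real.pi * |v|) ^ A ≤ 2 ^ A :=
              pow_le_pow_left₀ (by positivity) (by linarith) A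
            have : 0 ≤ (4 * Real.pi) ^ A * |v| ^ A := by positivity
            linarith
          · have h3 : (1 + 2 * Real.pi * |v|) ^ A ≤ (4 * Real.pi * |v|) ^ A :=
              pow_le_pow_left₀ (by positivity) (by linarith) A
            rw [mul_pow] at h3
            have : (0 : ℝ) ≤ 2 ^ A := by positivity
            linarith
        rw [div_le_iff₀ (by positivity)]
        have e2 : 1 ≤ 2 * Real.pi := by linarith [Real.pi_gt_three]
        have e3 : 0 ≤ 2 ^ A * ‖F v‖ + (4 * Real.pi) ^ A * (‖v‖ ^ A * ‖F v‖) := by positivity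
        calc (1 + 2 * Real.pi * |v|) ^ A * ‖F v‖ ≤ (2 ^ A + (4 * Real.pi) ^ A * |v| ^ A) * ‖F v‖ :=
              mul_le_mul_of_nonneg_right e1 (norm_nonneg _)
          _ = (2 ^ A * ‖F v‖ + (4 * Real.pi) ^ A * (‖v‖ ^ A * ‖F v‖)) := by
              rw [Real.norm_eq_abs]
              ring
          _ ≤ _ := le_mul_of_one_le_right e3 e2
    have h2 := h1.comp_div (show (2 * Real.pi : ℝ) ≠ 0 by positivity)
    refine h2.congr ?_
    filter_upwards with t
    rw [hH]
    simp only
    rw [norm_mul, Complex.norm_real, Real.norm_of_nonneg (by positivity), abs_div,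
      abs_of_pos (show (0 : ℝ) < 2 * Real.pi by positivity)]
    have : 2 * Real.pi * (|t| / (2 * Real.pi)) = |t| := by field_simp
    rw [this]
    ring
  · intro x hx
    have h1 := hval (Real.log x)
    rw [hf, Real.exp_log hx] at h1
    rw [h1]
    have h2 : ∀ t : ℝ, ((1 / (2 * Real.pi) : ℝ) : ℂ) * F (t / (2 * Real.pi)) *
        (x : ℂ) ^ ((t : ℂ) * Complex.I) =
        (fun v : ℝ => ((1 / (2 * Real.pi) : ℝ) : ℂ) *
          (Complex.exp (↑(2 * Real.pi * (v * Real.log x)) * Complex.I) • F v)) (t / (2 * Real.pi)) := by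
      intro t
      simp only [smul_eq_mul]
      rw [Complex.cpow_def_of_ne_zero (by exact_mod_cast hx.ne'), ← Complex.ofReal_log hx.le]
      have e1 : 2 * Real.pi * (t / (2 * Real.pi) * Real.log x) = t * Real.log x := by
        field_simp
      rw [e1]
      push_cast
      have e2 : (Real.log x : ℂ) * ((t : ℂ) * Complex.I) = (t : ℂ) * (Real.log x : ℂ) * Complex.I := by
        ring
      rw [e2]
      ring
    simp only [h2]
    rw [MeasureTheory.Measure.integral_comp_div (fun v : ℝ => ((1 / (2 * Real.pi) : ℝ) : ℂ) *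
          (Complex.exp (↑(2 * Real.pi * (v * Real.log x)) * Complex.I) • F v)) (2 * Real.pi),
      integral_const_mul, abs_of_pos (by positivity)]
    rw [Complex.real_smul, ← mul_assoc, ← Complex.ofReal_mul]
    have : 2 * Real.pi * (1 / (2 * Real.pi)) = 1 := by field_simp
    rw [this, Complex.ofReal_one, one_mul]

end Pool.Agent.W5h65.SM
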