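import Pool.Agent.W5h65.SM.P1
import Pool.Agent.W5h65.SM.P2
import Pool.Agent.W5h65.SM.P4
import Pool.Agent.W5h65.SM.P5

set_option autoImplicit false

/-! The main term, and uniqueness of the continuation of the `L`-functions. -/

namespace Pool.Agent.W5h65.SM

open Finset Filter Topology MeasureTheory Pool.Agent.W5h65.MD

/-- `a(n) = ∏_{p | n} p/(p+1)` -/
noncomputable def aa (n : ℕ) : ℂ := ∏ p ∈ n.primeFactors, ((p : ℂ) / (p + 1))

/-- terms of `T_M` -/
noncomputable def tm {k : ℕ} (M : ℕ) (s : Fin k → ℂ) (N : ℕ) : ℂ :=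
  open Classical in if 1 ≤ N ∧ IsSquare (M * N) then
    aa (M * N) * ∑ n ∈ Nat.finMulAntidiag k N, ∏ i, (n i : ℂ) ^ (-s i) else 0

lemma af_apply {k : ℕ} (s : Fin k → ℂ) (N : ℕ) :
    af s N = ∑ n ∈ Nat.finMulAntidiag k N, ∏ i, (n i : ℂ) ^ (-s i) := by
  unfold af
  rw [prod_apply]
  refine sum_congr rfl fun n hn => prod_congr rfl fun i _ => ?_
  rw [Nat.mem_finMulAntidiag] at hn
  rw [Pf_apply, if_neg]
  intro h
  apply hn.2
  rw [← hn.1]
  exact prod_eq_zero (mem_univ i) h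

lemma tm_eq {k : ℕ} {M : ℕ} (hM : 1 ≤ M) (s : Fin k → ℂ) (N : ℕ) :
    cF (M * N) * af s N = 1 / (2 * riemannZeta 2) * tm M s N := by
  unfold tm
  rcases Nat.eq_zero_or_pos N with h | h
  · subst h
    rw [af_zero, if_neg (by omega)]
    ring
  · rw [cF_eval _ (Nat.mul_pos hM h)]
    by_cases h2 : IsSquare (M * N)
    · rw [if_pos h2, if_pos ⟨h, h2⟩, af_apply]
      unfold aa
      ring
    · rw [if_neg h2, if_neg (fun h3 => h2 h3.2)]
      ring

lemma TT_eq {k : ℕ} {M : ℕ} (hM : 1 ≤ M) (s : Fin k → ℂ) :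
    TT M s = 1 / (2 * riemannZeta 2) * ∑' N : ℕ, tm M s N := by
  unfold TT
  rw [← tsum_mul_left]
  exact tsum_congr fun N => tm_eq hM s N

theorem L_unique {f h : ℂ → ℂ} (hf : DifferentiableOn ℂ f {s : ℂ | 1 / 2 < s.re})
    (hh : DifferentiableOn ℂ h {s : ℂ | 1 / 2 < s.re}) (he : ∀ s : ℂ, 1 < s.re → f s = h s) :
    ∀ s : ℂ, 1 / 2 < s.re → f s = h s := by
  have hU : IsOpen {s : ℂ | 1 / 2 < s.re} := isOpen_lt continuous_const Complex.continuous_re
  have hc : IsPreconnected {s : ℂ | (1 / 2 : ℝ) < s.re} := (convex_halfSpace_re_gt _).isPreconnected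
  have h1 := (hf.analyticOnNhd hU).eqOn_of_preconnected_of_eventuallyEq (hh.analyticOnNhd hU) hc
    (z₀ := 2) (by simp; norm_num) (by
      have : {s : ℂ | 1 < s.re} ∈ 𝓝 (2 : ℂ) :=
        (isOpen_lt continuous_const Complex.continuous_re).mem_nhds (by simp)
      filter_upwards [this] with s hs
      exact he s hs)
  exact fun s hs => h1 hs

end Pool.Agent.W5h65.SM
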