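import Mathlib

set_option autoImplicit false

/-! Values of Dirichlet convolution products. -/

namespace Pool.Agent.W5h65.SM

open Finset

theorem prod_apply : ∀ (k : ℕ) (f : Fin k → ArithmeticFunction ℂ) (N : ℕ),
    (∏ i, f i) N = ∑ n ∈ Nat.finMulAntidiag k N, ∏ i, f i (n i) := by
  intro k
  induction k with
  | zero =>
    intro f N
    rw [univ_eq_empty, prod_empty, ArithmeticFunction.one_apply]
    by_cases h : N = 1
    · subst h
      rw [if_pos rfl, Nat.finMulAntidiag_one]
      simp
    · rw [if_neg h, Nat.finMulAntidiag_zero_left h, sum_empty]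
  | succ k ih =>
    intro f N
    rw [Fin.prod_univ_succ, ArithmeticFunction.mul_apply]
    simp only [ih, mul_sum]
    rw [sum_sigma']
    refine sum_nbij' (fun x => Fin.cons x.1.1 x.2)
      (fun n => ⟨(n 0, ∏ i : Fin k, n i.succ), fun i => n i.succ⟩) ?_ ?_ ?_ ?_ ?_
    · rintro ⟨p, n⟩ h
      simp only [mem_sigma, Nat.mem_divisorsAntidiagonal, Nat.mem_finMulAntidiag] at h ⊢
      obtain ⟨⟨h1, h2⟩, h3, h4⟩ := h
      refine ⟨?_, h2⟩
      rw [Fin.prod_univ_succ]
      simp only [Fin.cons_zero, Fin.cons_succ]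
      rw [h3, h1]
    · intro n h
      simp only [mem_sigma, Nat.mem_divisorsAntidiagonal, Nat.mem_finMulAntidiag] at h ⊢
      obtain ⟨h1, h2⟩ := h
      rw [Fin.prod_univ_succ] at h1
      refine ⟨⟨h1, h2⟩, trivial, ?_⟩
      intro h3
      rw [h3, mul_zero] at h1
      exact h2 h1.symm
    · rintro ⟨p, n⟩ h
      simp only [mem_sigma, Nat.mem_divisorsAntidiagonal, Nat.mem_finMulAntidiag] at h
      obtain ⟨_, h3, _⟩ := h
      simp only [Fin.cons_zero, Fin.cons_succ]
      rw [h3]
    · intro n _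
      simp only
      exact Fin.cons_self_tail n
    · rintro ⟨p, n⟩ _
      rw [Fin.prod_univ_succ]
      simp only [Fin.cons_zero, Fin.cons_succ]

end Pool.Agent.W5h65.SM
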