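import Pool.Agent.W5h65.MD.D3

set_option autoImplicit false

/-! Smooth sums over fundamental discriminants with a general weight. -/

namespace Pool.Agent.W5h65.SM

open Finset Filter Topology MeasureTheory Pool.Agent.W5h65.MD

/-- representation of the weight -/
structure Rep (g φ : ℝ → ℂ) : Prop where
  cont : Continuous φ
  int : ∀ A : ℕ, Integrable (fun t : ℝ => (1 + |t|) ^ A * ‖φ t‖)
  eq : ∀ x : ℝ, 0 < x → g x = ∫ t : ℝ, φ t * (x : ℂ) ^ ((t : ℂ) * Complex.I)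

lemma Rep.phi_int {g φ : ℝ → ℂ} (h : Rep g φ) : Integrable φ := by
  have h1 := h.int 0
  simp only [pow_zero, one_mul] at h1
  exact (integrable_norm_iff h.cont.aestronglyMeasurable).1 h1

lemma cpow_cont {x : ℝ} (hx : 0 < x) : Continuous (fun t : ℝ => (x : ℂ) ^ ((t : ℂ) * Complex.I)) := by
  apply Continuous.const_cpow (by fun_prop)
  left
  exact_mod_cast hx.ne'

lemma cpow_norm_one {x : ℝ} (hx : 0 < x) (t : ℝ) : ‖(x : ℂ) ^ ((t : ℂ) * Complex.I)‖ = 1 := by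
  rw [Complex.norm_cpow_eq_rpow_re_of_pos hx]
  simp

lemma Rep.int' {g φ : ℝ → ℂ} (h : Rep g φ) {x : ℝ} (hx : 0 < x) :
    Integrable (fun t : ℝ => φ t * (x : ℂ) ^ ((t : ℂ) * Complex.I)) := by
  refine (h.phi_int.norm).mono' (h.cont.mul (cpow_cont hx)).aestronglyMeasurable ?_
  filter_upwards with t
  rw [norm_mul, cpow_norm_one hx, mul_one]

/-- the common form of the blocks -/
lemma EE_form {k : ℕ} (M j : ℕ) (s : Fin k → ℂ) (w : ℂ) :
    EE M j s w = ∑ d ∈ range (2 ^ (j + 1) + 1),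
      PH (d / 2 ^ j) * (gd M s 0 d - TT M s) * (d : ℂ) ^ (-w) := by
  unfold EE
  rw [AB_fin, ZZ_fin, mul_sum, ← sum_sub_distrib]
  refine sum_congr rfl fun d _ => ?_
  have h1 : gd M s w d = gd M s 0 d * (d : ℂ) ^ (-w) := by
    unfold gd
    split_ifs
    · rw [neg_zero, Complex.cpow_zero]
      ring
    · rw [zero_mul]
  rw [h1]
  ring

theorem block {g φ : ℝ → ℂ} (h : Rep g φ) {k : ℕ} (M j : ℕ) (s : Fin k → ℂ) {X : ℝ} (hX : 0 < X) :
    ∑ d ∈ range (2 ^ (j + 1) + 1), PH (d / 2 ^ j) * (gd M s 0 d - TT M s) * g (d / X) =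
    ∫ t : ℝ, φ t * (X : ℂ) ^ (-((t : ℂ) * Complex.I)) * EE M j s (-((t : ℂ) * Complex.I)) := by
  have h1 : ∀ t : ℝ, φ t * (X : ℂ) ^ (-((t : ℂ) * Complex.I)) * EE M j s (-((t : ℂ) * Complex.I)) =
      ∑ d ∈ range (2 ^ (j + 1) + 1), PH (d / 2 ^ j) * (gd M s 0 d - TT M s) *
        (φ t * (((d : ℝ) / X : ℝ) : ℂ) ^ ((t : ℂ) * Complex.I)) := by
    intro t
    rw [EE_form, mul_sum]
    refine sum_congr rfl fun d _ => ?_
    rcases Nat.eq_zero_or_pos d with h0 | h0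
    · subst h0
      rw [PH_at_zero]
      ring
    · have hd : (0 : ℝ) < d := by exact_mod_cast h0
      have e1 : (((d : ℝ) / X : ℝ) : ℂ) ^ ((t : ℂ) * Complex.I) =
          (X : ℂ) ^ (-((t : ℂ) * Complex.I)) * (d : ℂ) ^ ((t : ℂ) * Complex.I) := by
        rw [div_eq_mul_inv, Complex.ofReal_mul, Complex.mul_cpow_ofReal_nonneg hd.le (by positivity),
          Complex.ofReal_inv, Complex.inv_cpow, ← Complex.cpow_neg, Complex.ofReal_natCast]
        · ring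
        · rw [Complex.arg_ofReal_of_nonneg hX.le]
          exact Real.pi_ne_zero.symm
      rw [e1, neg_neg]
      ring
  simp only [h1]
  rw [integral_finsetSum]
  · refine sum_congr rfl fun d _ => ?_
    rcases Nat.eq_zero_or_pos d with h0 | h0
    · subst h0
      rw [PH_at_zero]
      simp
    · have hd : (0 : ℝ) < (d : ℝ) / X := by
        have : (0 : ℝ) < d := by exact_mod_cast h0
        positivity
      rw [integral_const_mul, ← h.eq _ hd]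
  · intro d _
    rcases Nat.eq_zero_or_pos d with h0 | h0
    · subst h0
      rw [PH_at_zero]
      simp
    · have hd : (0 : ℝ) < (d : ℝ) / X := by
        have : (0 : ℝ) < d := by exact_mod_cast h0
        positivity
      exact (h.int' hd).const_mul _

theorem block_bound (k M : ℕ) (hM : 1 ≤ M) (p : (Fin k → ℝ) × ℝ) (hp : p ∈ Omega k) (B : ℝ)
    {g φ : ℝ → ℂ} (h : Rep g φ) : ∃ (C CT : ℝ) (A : ℕ), 0 < C ∧ 0 < CT ∧ ∀ (s : Fin k → ℂ),
    (∀ i, p.1 i ≤ (s i).re) → (∀ i, (s i).re ≤ B) → ‖TT M s‖ ≤ CT ∧ ∀ (j : ℕ) (X : ℝ), 0 < X →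
    ‖∑ d ∈ range (2 ^ (j + 1) + 1), PH (d / 2 ^ j) * (gd M s 0 d - TT M s) * g (d / X)‖ ≤
      C * (1 + ‖s‖) ^ A * (2 : ℝ) ^ ((j : ℝ) * p.2) := by
  obtain ⟨q, hq, hq1, hq2⟩ := Omega_sub k hp
  obtain ⟨⟨hg1, hg2⟩, hg3⟩ := hull_good k M hM q hq
  obtain ⟨ε, hε, h1, h2⟩ : ∃ ε > 0, (∀ i, q.1 i + ε ≤ p.1 i) ∧ q.2 + ε ≤ p.2 := by
    have h1 : ∀ᶠ δ : ℝ in 𝓝[>] 0, (∀ i, q.1 i + δ ≤ p.1 i) ∧ q.2 + δ ≤ p.2 := by
      apply Filter.Eventually.and
      · rw [eventually_all]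
        intro i
        have : ∀ᶠ ε : ℝ in 𝓝[>] 0, ε < p.1 i - q.1 i :=
          (eventually_lt_nhds (by linarith [hq1 i])).filter_mono nhdsWithin_le_nhds
        filter_upwards [this] with ε hε
        linarith
      · have : ∀ᶠ ε : ℝ in 𝓝[>] 0, ε < p.2 - q.2 :=
          (eventually_lt_nhds (by linarith)).filter_mono nhdsWithin_le_nhds
        filter_upwards [this] with ε hε
        linarith
    obtain ⟨δ, h2, h3⟩ := (h1.and self_mem_nhdsWithin).exists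
    exact ⟨δ, h3, h2⟩
  obtain ⟨C, A, hC, hgood⟩ := hg2 ε (max B 0) hε
  obtain ⟨CT, hCT, hT⟩ := TT_bound k ε hε M hM
  obtain ⟨I, hI⟩ : ∃ I, I = ∫ t : ℝ, (1 + |t|) ^ A * ‖φ t‖ := ⟨_, rfl⟩
  have hI0 : 0 ≤ I := by
    rw [hI]
    exact integral_nonneg fun t => by positivity
  refine ⟨C * (I + 1), CT, A, by positivity, hCT, ?_⟩
  intro s hs hsB
  refine ⟨hT s fun i => by linarith [hs i, h1 i, hg1 i], ?_⟩
  intro j X hX
  rw [block h M j s hX]
  have hb : ∀ t : ℝ, ‖φ t * (X : ℂ) ^ (-((t : ℂ) * Complex.I)) *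
      EE M j s (-((t : ℂ) * Complex.I))‖ ≤
      C * (1 + ‖s‖) ^ A * (2 : ℝ) ^ ((j : ℝ) * p.2) * ((1 + |t|) ^ A * ‖φ t‖) := by
    intro t
    have e1 := hgood j s (-((t : ℂ) * Complex.I)) (fun i => by linarith [hs i, h1 i])
      (fun i => (hsB i).trans (le_max_left _ _)) (by simp)
    have e2 : (-((t : ℂ) * Complex.I)).re = 0 := by simp
    have e3 : ‖-((t : ℂ) * Complex.I)‖ = |t| := by simp
    rw [e2, e3, sub_zero] at e1
    have e4 : ‖(X : ℂ) ^ (-((t : ℂ) * Complex.I))‖ = 1 := by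
      rw [Complex.norm_cpow_eq_rpow_re_of_pos hX, e2, Real.rpow_zero]
    rw [norm_mul, norm_mul, e4, mul_one]
    have e5 : (2 : ℝ) ^ ((j : ℝ) * (q.2 + ε)) ≤ (2 : ℝ) ^ ((j : ℝ) * p.2) := by
      apply Real.rpow_le_rpow_of_exponent_le (by norm_num)
      exact mul_le_mul_of_nonneg_left h2 (Nat.cast_nonneg j)
    have e6 : (1 + ‖s‖ + |t|) ^ A ≤ (1 + ‖s‖) ^ A * (1 + |t|) ^ A := by
      rw [← mul_pow]
      apply pow_le_pow_left₀ (by positivity)
      nlinarith [norm_nonneg s, abs_nonneg t]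
    calc ‖φ t‖ * ‖EE M j s (-((t : ℂ) * Complex.I))‖
        ≤ ‖φ t‖ * (C * (1 + ‖s‖ + |t|) ^ A * (2 : ℝ) ^ ((j : ℝ) * (q.2 + ε))) :=
          mul_le_mul_of_nonneg_left e1 (norm_nonneg _)
      _ ≤ ‖φ t‖ * (C * ((1 + ‖s‖) ^ A * (1 + |t|) ^ A) * (2 : ℝ) ^ ((j : ℝ) * p.2)) := by
          gcongr
      _ = _ := by ring
  refine (norm_integral_le_of_norm_le ((h.int A).const_mul _) (Eventually.of_forall hb)).trans ?_
  rw [integral_const_mul, ← hI]
  have : 0 ≤ C * (1 + ‖s‖) ^ A * (2 : ℝ) ^ ((j : ℝ) * p.2) := by positivity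
  calc _ ≤ C * (1 + ‖s‖) ^ A * (2 : ℝ) ^ ((j : ℝ) * p.2) * (I + 1) :=
        mul_le_mul_of_nonneg_left (by linarith) this
    _ = _ := by ring

end Pool.Agent.W5h65.SM
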